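import Pool.Agent.T9h84.Kirch0

/-!
# A positive-fraction version of Kirchberger's theorem

Every point `x` of `A ∪ B` gives a half-space of `ℝ^(d+1)`, consisting of the pairs `(w, t)` with
`⟪w, x⟫ - t ≥ 1` for `x ∈ A` and `⟪w, x⟫ - t ≤ -1` for `x ∈ B`. A subset `S` of `A ∪ B` is good if and
only if the half-spaces of its points intersect, and a point lying in almost all half-spaces
separates almost all of `A` from almost all of `B`. So the question is one about the fractional Helly
theorem in dimension `m = d + 1`, in the range where almost all `(m+1)`-tuples intersect.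

That theorem is proved by compression: the point of minimal norm of an intersection of `k ≥ m` of the
sets is the point of minimal norm of the intersection of some `m` of them. If all but the fraction `ε`
of the `(d+2)`-subsets are good and `2 ε C(k, d+2) ≤ 1`, then at least half of the `k`-subsets are
good, so the most frequent of these canonical points misses at most the fraction
`(m log k + log 2) / (k - m)` of the sets.
-/

set_option autoImplicit false

open Finset Module Filter Topology

namespace Pool.Agent.Results.MP_ff3a4f_co.PositiveFraction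

open Pool.Agent.T9h84.Kirch Pool.Agent.T9h84.FH

variable {d : ℕ}

open Classical in
/-- if all `(d+2)`-subsets are good, then `A` and `B` are separated -/
lemma all_good (hd : 1 ≤ d) {N : ℕ} {A B : Finset (Pt d)} (hAB : Disjoint A B) (hA : #A = N)
    (hB : #B = N) (hN : d + 2 ≤ 2 * N)
    (h : (2 * N).choose (d + 2) ≤
      #(((A ∪ B).powersetCard (d + 2)).filter fun S => Separated (A ∩ S) (B ∩ S))) :
    Separated A B := by
  have hn : #(A ∪ B) = 2 * N := by rw [card_union_of_disjoint hAB, hA, hB]; ring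
  have h1 : ((A ∪ B).powersetCard (d + 2)).filter (fun S => Separated (A ∩ S) (B ∩ S))
      = (A ∪ B).powersetCard (d + 2) := by
    refine eq_of_subset_of_card_le (filter_subset _ _) ?_
    rw [card_powersetCard, hn]
    exact h
  have h2 : (⋂ x ∈ A ∪ B, C A x).Nonempty := by
    refine Convex.helly_theorem (𝕜 := ℝ) ?_ (fun x _ => C_convex A x) ?_
    · rw [finrank_V, hn]; omega
    · intro I hI hIc
      rw [finrank_V] at hIc
      rw [← good_iff hd hAB hI]
      have h3 : I ∈ (A ∪ B).powersetCard (d + 2) := mem_powersetCard.2 ⟨hI, by omega⟩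
      rw [← h1] at h3
      exact (mem_filter.1 h3).2
  have h3 := (good_iff hd hAB (Subset.refl (A ∪ B))).2 h2
  rwa [inter_eq_left.2 subset_union_left, inter_eq_left.2 subset_union_right] at h3

open Classical in
/-- the quantitative core -/
lemma core (hd : 1 ≤ d) {N : ℕ} {A B : Finset (Pt d)} (hAB : Disjoint A B) (hA : #A = N)
    (hB : #B = N) (hN : d + 2 ≤ 2 * N) {ε : ℝ} (k : ℕ) (hk : d + 2 ≤ k)
    (hε : 2 * ε * k.choose (d + 2) ≤ 1)
    (h : (1 - ε) * (2 * N).choose (d + 2) ≤
      #(((A ∪ B).powersetCard (d + 2)).filter fun S => Separated (A ∩ S) (B ∩ S))) :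
    ∃ A' ⊆ A, ∃ B' ⊆ B, Separated A' B' ∧
      (1 - 2 * (((d + 1) * Real.log k + Real.log 2) / (k - (d + 1)))) * N ≤ #A' ∧
      (1 - 2 * (((d + 1) * Real.log k + Real.log 2) / (k - (d + 1)))) * N ≤ #B' := by
  have hn : #(A ∪ B) = 2 * N := by rw [card_union_of_disjoint hAB, hA, hB]; ring
  have hbad : (#(((A ∪ B).powersetCard (finrank ℝ (V d) + 1)).filter
      (fun J => ¬ (⋂ i ∈ J, C A i).Nonempty)) : ℝ) ≤ ε * (#(A ∪ B)).choose (finrank ℝ (V d) + 1) := by
    rw [finrank_V, hn]
    have h1 : ((A ∪ B).powersetCard (d + 1 + 1)).filter (fun J => ¬ (⋂ i ∈ J, C A i).Nonempty)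
        = ((A ∪ B).powersetCard (d + 2)).filter (fun S => ¬ Separated (A ∩ S) (B ∩ S)) := by
      refine filter_congr fun S hS => ?_
      rw [good_iff hd hAB (mem_powersetCard.1 hS).1]
    rw [h1]
    have h2 : #(((A ∪ B).powersetCard (d + 2)).filter (fun S => Separated (A ∩ S) (B ∩ S)))
        + #(((A ∪ B).powersetCard (d + 2)).filter (fun S => ¬ Separated (A ∩ S) (B ∩ S)))
        = (2 * N).choose (d + 2) := by
      rw [card_filter_add_card_filter_not, card_powersetCard, hn]
    have h3 : (#(((A ∪ B).powersetCard (d + 2)).filter (fun S => Separated (A ∩ S) (B ∩ S))) : ℝ)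
        + #(((A ∪ B).powersetCard (d + 2)).filter (fun S => ¬ Separated (A ∩ S) (B ∩ S)))
        = (2 * N).choose (d + 2) := by
      exact_mod_cast h2
    have h4 : d + 1 + 1 = d + 2 := rfl
    rw [h4]
    linarith
  obtain ⟨p, hp⟩ := frac_helly (C_convex A) (C_closed A) (A ∪ B) k ε
    (by rw [finrank_V]; omega) (by rw [finrank_V, hn]; omega) hbad (by rw [finrank_V]; exact hε)
  rw [finrank_V, hn] at hp
  set x : ℝ := ((d + 1) * Real.log k + Real.log 2) / (k - (d + 1)) with hx
  have hp' : (#((A ∪ B).filter (fun i => p ∉ C A i)) : ℝ) ≤ x * (2 * N) := by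
    have h5 : (((d + 1 : ℕ) : ℝ) * Real.log k + Real.log 2) / (k - ((d + 1 : ℕ) : ℝ)) *
        ((2 * N : ℕ) : ℝ) = x * (2 * N) := by
      push_cast
      rw [hx]
    rw [← h5]
    exact hp
  have key : ∀ P : Finset (Pt d), P ⊆ A ∪ B → #P = N →
      (1 - 2 * x) * N ≤ #(P.filter (fun i => p ∈ C A i)) := by
    intro P hP hPc
    have h1 : #(P.filter (fun i => p ∈ C A i)) + #(P.filter (fun i => p ∉ C A i)) = N := by
      rw [card_filter_add_card_filter_not, hPc]
    have h2 : #(P.filter (fun i => p ∉ C A i)) ≤ #((A ∪ B).filter (fun i => p ∉ C A i)) :=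
      card_le_card (filter_subset_filter _ hP)
    have h3 : (#(P.filter (fun i => p ∈ C A i)) : ℝ) + #(P.filter (fun i => p ∉ C A i)) = N := by
      exact_mod_cast h1
    have h4 : (#(P.filter (fun i => p ∉ C A i)) : ℝ) ≤ #((A ∪ B).filter (fun i => p ∉ C A i)) := by
      exact_mod_cast h2
    linarith
  refine ⟨A.filter (fun i => p ∈ C A i), filter_subset _ _, B.filter (fun i => p ∈ C A i),
    filter_subset _ _, ?_, key A subset_union_left hA, key B subset_union_right hB⟩
  exact separated_of_mem hd (filter_subset _ _)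
    (disjoint_of_subset_left (filter_subset _ _) hAB.symm)
    (fun x hx => (mem_filter.1 hx).2) (fun x hx => (mem_filter.1 hx).2)

/-- The function `g` of the theorem. -/
noncomputable def g (d : ℕ) (ε : ℝ) : ℝ :=
  8 * (d + 1) * ε ^ (1 / (d + 2) : ℝ) * Real.log (2 / ε)

lemma g_tendsto (d : ℕ) : Tendsto (g d) (𝓝[>] 0) (𝓝 0) := by
  have ha : (0 : ℝ) < 1 / (d + 2) := by positivity
  have h1 : Tendsto (fun ε : ℝ => ε ^ (1 / (d + 2) : ℝ)) (𝓝[>] 0) (𝓝 0) := by
    have : Tendsto (fun ε : ℝ => ε ^ (1 / (d + 2) : ℝ)) (𝓝 0) (𝓝 (0 ^ (1 / (d + 2) : ℝ))) :=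
      (Real.continuousAt_rpow_const 0 _ (Or.inr ha.le)).tendsto
    rw [Real.zero_rpow ha.ne'] at this
    exact this.mono_left nhdsWithin_le_nhds
  have h2 := tendsto_log_mul_rpow_nhdsGT_zero ha
  have h3 : Tendsto (fun ε : ℝ => 8 * (d + 1) * (Real.log 2 * ε ^ (1 / (d + 2) : ℝ)
      - Real.log ε * ε ^ (1 / (d + 2) : ℝ))) (𝓝[>] 0) (𝓝 (8 * (d + 1) * (Real.log 2 * 0 - 0))) :=
    ((h1.const_mul _).sub h2).const_mul _
  rw [mul_zero, sub_zero, mul_zero] at h3
  refine h3.congr' ?_
  filter_upwards [self_mem_nhdsWithin] with ε hε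
  have hε' : (0 : ℝ) < ε := hε
  rw [g, Real.log_div (by norm_num) hε'.ne']
  ring

open Classical in
/-- **A positive-fraction version of Kirchberger's theorem.** Let
`g (ε) = 8 (d + 1) ε ^ (1 / (d + 2)) log (2 / ε)`, which tends to `0` as `ε → 0`. Let `A`, `B` be
disjoint sets of `N` points of `ℝ^d` such that at least the fraction `1 - ε` of the `(d+2)`-subsets
`S` of `A ∪ B` is good: some hyperplane separates `A ∩ S` from `B ∩ S`. Then some hyperplane separates
two sets `A' ⊆ A`, `B' ⊆ B` with at least `(1 - g (ε)) N` points each. General position of `A ∪ B` is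
needed only if `A ∪ B` has no `(d+2)`-subsets. -/
theorem result (d : ℕ) (hd : 1 ≤ d) :
    Tendsto (g d) (𝓝[>] 0) (𝓝 0) ∧ g d 0 = 0 ∧
    ∀ ε : ℝ, 0 ≤ ε → ε ≤ 1 → ∀ (N : ℕ) (A B : Finset (Pt d)), Disjoint A B → #A = N → #B = N →
      (d + 2 ≤ 2 * N ∨ GeneralPosition (A ∪ B)) →
      (1 - ε) * (2 * N).choose (d + 2) ≤
        #(((A ∪ B).powersetCard (d + 2)).filter fun S => Separated (A ∩ S) (B ∩ S)) →
      ∃ A' ⊆ A, ∃ B' ⊆ B, Separated A' B' ∧ (1 - g d ε) * N ≤ #A' ∧ (1 - g d ε) * N ≤ #B' := by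
  have ha : (0 : ℝ) < 1 / (d + 2) := by positivity
  have hg0 : g d 0 = 0 := by
    rw [g, Real.zero_rpow ha.ne']
    ring
  refine ⟨g_tendsto d, hg0, ?_⟩
  intro ε hε0 hε1 N A B hAB hA hB hgen hfrac
  have hgnn : 0 ≤ g d ε := by
    rcases hε0.eq_or_lt with h | h
    · rw [← h, hg0]
    · rw [g]
      have : 0 ≤ Real.log (2 / ε) := Real.log_nonneg (by rw [le_div_iff₀ h]; linarith)
      positivity
  -- the cases where `A` and `B` themselves are separated
  have hsep : Separated A B → ∃ A' ⊆ A, ∃ B' ⊆ B, Separated A' B' ∧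
      (1 - g d ε) * N ≤ #A' ∧ (1 - g d ε) * N ≤ #B' := by
    intro h
    have hN0 : (0 : ℝ) ≤ N := Nat.cast_nonneg N
    refine ⟨A, Subset.refl _, B, Subset.refl _, h, ?_, ?_⟩
    · rw [hA]; nlinarith
    · rw [hB]; nlinarith
  rcases Nat.lt_or_ge (2 * N) (d + 2) with hN | hN
  · -- few points in general position
    have hgp : GeneralPosition (A ∪ B) := by
      rcases hgen with h | h
      · omega
      · exact h
    refine hsep (separated_of_affineIndependent hd hAB (hgp (A ∪ B) (Subset.refl _) ?_))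
    rw [card_union_of_disjoint hAB, hA, hB]
    omega
  rcases hε0.eq_or_lt with h | hε
  · -- `ε = 0`
    refine hsep (all_good hd hAB hA hB hN ?_)
    rw [← h, sub_zero, one_mul] at hfrac
    exact_mod_cast hfrac
  -- `ε > 0`
  set y : ℝ := (ε ^ (1 / (d + 2) : ℝ))⁻¹ with hy
  have hεa : 0 < ε ^ (1 / (d + 2) : ℝ) := Real.rpow_pos_of_pos hε _
  have hypos : 0 < y := inv_pos.2 hεa
  have hypow : y ^ (d + 2) = ε⁻¹ := by
    rw [hy, inv_pow, ← Real.rpow_natCast, ← Real.rpow_mul hε.le]
    have : (1 / (d + 2) : ℝ) * ((d + 2 : ℕ) : ℝ) = 1 := by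
      push_cast
      field_simp
    rw [this, Real.rpow_one]
  have hgy : g d ε = 8 * (d + 1) * y⁻¹ * Real.log (2 / ε) := by
    rw [g, hy, inv_inv]
  have hlog2 : 0.69 < Real.log 2 := by
    have := Real.log_two_gt_d9
    linarith
  have hlogle : Real.log 2 ≤ Real.log (2 / ε) := by
    refine Real.log_le_log (by norm_num) ?_
    rw [le_div_iff₀ hε]
    linarith
  have hd0 : (0 : ℝ) < (d : ℝ) + 1 := by positivity
  rcases lt_or_ge y (4 * (d + 1)) with hy4 | hy4
  · -- then `g (ε) ≥ 1`
    have h1 : 1 ≤ g d ε := by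
      rw [hgy]
      have h2 : (4 * ((d : ℝ) + 1))⁻¹ ≤ y⁻¹ := by
        apply inv_anti₀ hypos hy4.le
      calc (1 : ℝ) ≤ 2 * Real.log 2 := by linarith
        _ = 8 * (d + 1) * (4 * ((d : ℝ) + 1))⁻¹ * Real.log 2 := by field_simp; norm_num
        _ ≤ 8 * (d + 1) * y⁻¹ * Real.log (2 / ε) := by gcongr
    have hN0 : (0 : ℝ) ≤ N := Nat.cast_nonneg N
    refine ⟨∅, empty_subset _, ∅, empty_subset _, separated_empty_left hd ∅, ?_, ?_⟩
    · simp only [card_empty, Nat.cast_zero]
      nlinarith
    · simp only [card_empty, Nat.cast_zero]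
      nlinarith
  · -- choose `k = ⌊y⌋`
    set k := ⌊y⌋₊ with hk
    have hky : (k : ℝ) ≤ y := Nat.floor_le hypos.le
    have hyk : y < k + 1 := Nat.lt_floor_add_one y
    have hd1 : (1 : ℝ) ≤ d := by exact_mod_cast hd
    have hkd : d + 2 ≤ k := by
      have : ((d + 2 : ℕ) : ℝ) < k + 1 := by
        push_cast
        linarith
      have : (d + 2 : ℕ) < k + 1 := by exact_mod_cast this
      omega
    have hk0 : (0 : ℝ) < k := by exact_mod_cast (by omega : 0 < k)
    have hch : 2 * ε * k.choose (d + 2) ≤ 1 := by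
      have h1 : (2 * k.choose (d + 2) : ℝ) ≤ (k : ℝ) ^ (d + 2) := by
        have h2 := Nat.choose_le_pow_div (α := ℝ) (d + 2) k
        have h3 : (2 : ℝ) ≤ ((d + 2).factorial : ℝ) := by
          have : 2 ≤ (d + 2).factorial := by
            calc 2 = Nat.factorial 2 := rfl
              _ ≤ (d + 2).factorial := Nat.factorial_le (by omega)
          exact_mod_cast this
        calc (2 * k.choose (d + 2) : ℝ) ≤ 2 * ((k : ℝ) ^ (d + 2) / ((d + 2).factorial : ℝ)) := by
              gcongr
          _ ≤ 2 * ((k : ℝ) ^ (d + 2) / 2) := by gcongr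
          _ = (k : ℝ) ^ (d + 2) := by ring
      calc 2 * ε * k.choose (d + 2) = ε * (2 * k.choose (d + 2)) := by ring
        _ ≤ ε * (k : ℝ) ^ (d + 2) := by gcongr
        _ ≤ ε * y ^ (d + 2) := by gcongr
        _ = 1 := by rw [hypow]; exact mul_inv_cancel₀ hε.ne'
    obtain ⟨A', hA', B', hB', hs, h1, h2⟩ := core hd hAB hA hB hN k hkd hch hfrac
    -- compare the bounds
    have hkm : y / 2 ≤ (k : ℝ) - (d + 1) := by linarith
    have hlogk : Real.log k ≤ Real.log y := Real.log_le_log hk0 hky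
    have hlogy : ((d : ℝ) + 1) * Real.log y ≤ (d + 1) * Real.log (1 / ε) := by
      have h3 : ((d : ℝ) + 2) * Real.log y = Real.log (1 / ε) := by
        have h4 := congrArg Real.log hypow
        rw [Real.log_pow] at h4
        push_cast at h4
        rw [h4, one_div]
      have h5 : 0 ≤ Real.log y := Real.log_nonneg (by linarith)
      have h6 : Real.log y ≤ Real.log (1 / ε) := by
        rw [← h3]
        nlinarith
      gcongr
    have hx : ((d + 1) * Real.log k + Real.log 2) / (k - (d + 1)) ≤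
        2 * (d + 1) * y⁻¹ * Real.log (2 / ε) := by
      have h3 : ((d : ℝ) + 1) * Real.log k + Real.log 2 ≤ (d + 1) * Real.log (2 / ε) := by
        have h4 : Real.log (2 / ε) = Real.log 2 + Real.log (1 / ε) := by
          rw [← Real.log_mul (by norm_num) (by positivity)]
          congr 1
          ring
        rw [h4]
        have h5 : ((d : ℝ) + 1) * Real.log k ≤ (d + 1) * Real.log y := by gcongr
        have h6 : Real.log 2 ≤ (d + 1) * Real.log 2 := by nlinarith
        nlinarith
      have hlp : 0 ≤ Real.log (2 / ε) := by linarith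
      calc ((d + 1) * Real.log k + Real.log 2) / (k - (d + 1))
          ≤ ((d + 1) * Real.log (2 / ε)) / (k - (d + 1)) := by
            have : (0 : ℝ) < (k : ℝ) - (d + 1) := by linarith
            gcongr
        _ ≤ ((d + 1) * Real.log (2 / ε)) / (y / 2) := by
            gcongr
        _ = 2 * (d + 1) * y⁻¹ * Real.log (2 / ε) := by
            field_simp
    have hxg : 1 - g d ε ≤ 1 - 2 * (((d + 1) * Real.log k + Real.log 2) / (k - (d + 1))) := by
      have h3 : 0 ≤ 4 * (d + 1) * y⁻¹ * Real.log (2 / ε) := by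
        have : 0 ≤ Real.log (2 / ε) := by linarith
        positivity
      rw [hgy]
      linarith
    have hN0 : (0 : ℝ) ≤ N := Nat.cast_nonneg N
    exact ⟨A', hA', B', hB', hs, (mul_le_mul_of_nonneg_right hxg hN0).trans h1,
      (mul_le_mul_of_nonneg_right hxg hN0).trans h2⟩

end Pool.Agent.Results.MP_ff3a4f_co.PositiveFraction
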